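import Pool.Agent.N132.HT.Main
import Pool.Agent.Y133.Half.Index
import Pool.Agent.V11219.BstMain

/-!
# The common index of the Hodge classes and of the Tate classes over the algebraic classes
-/

open CategoryTheory AlgebraicGeometry TensorProduct Filter Topology

open scoped ENNReal

set_option autoImplicit false
set_option linter.unusedSectionVars false

universe u v

namespace Pool.Agent.N132.TI

open Module
open Pool.Agent.H914 Pool.Agent.H914.VarClass Pool.Agent.H914.VarClass.Obj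
  Pool.Agent.H914.WeilCohomology Pool.Agent.Y133.Half Pool.Agent.Y121.AH Pool.Agent.N132.HT
open Pool.Agent.Y132.AH (GaloisData IsTate)
open Pool.Agent.R920.MT (IsMotivated IsSystem motPred mot_nondeg isSystem_hodge)

variable {k : Type u} [Field k] {𝒱 : VarClass k} {ops : CycleOps 𝒱}

section Limits

/-- The product of two indices. -/
theorem index_mul {t s r : ℕ → ℕ} {N M : ℕ∞} (hs : ∀ n, 0 < s n) (hN1 : 1 ≤ N) (hM1 : 1 ≤ M)
    (hN : HasIndex t s N) (hM : HasIndex s r M) : HasIndex t r (N * M) := by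
  have hN0 : (N : ℝ≥0∞) ≠ 0 := by
    have h2 : (1 : ℝ≥0∞) ≤ (N : ℝ≥0∞) := by exact_mod_cast hN1
    exact (lt_of_lt_of_le one_pos h2).ne'
  have hM0 : (M : ℝ≥0∞) ≠ 0 := by
    have h2 : (1 : ℝ≥0∞) ≤ (M : ℝ≥0∞) := by exact_mod_cast hM1
    exact (lt_of_lt_of_le one_pos h2).ne'
  have h3 := ENNReal.Tendsto.mul hN (Or.inl hN0) hM (Or.inl hM0)
  have h4 : (fun n => (t n : ℝ≥0∞) / s n * ((s n : ℝ≥0∞) / r n)) =
      fun n => (t n : ℝ≥0∞) / r n := by
    funext n
    have h5 : (s n : ℝ≥0∞) ≠ 0 := by exact_mod_cast (hs n).ne'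
    have h6 : (s n : ℝ≥0∞) ≠ ⊤ := ENNReal.natCast_ne_top _
    rw [div_eq_mul_inv, div_eq_mul_inv, div_eq_mul_inv]
    calc (t n : ℝ≥0∞) * (s n : ℝ≥0∞)⁻¹ * ((s n : ℝ≥0∞) * (r n : ℝ≥0∞)⁻¹)
        = (s n : ℝ≥0∞) * (s n : ℝ≥0∞)⁻¹ * ((t n : ℝ≥0∞) * (r n : ℝ≥0∞)⁻¹) := by ring
      _ = _ := by rw [ENNReal.mul_inv_cancel h5 h6, one_mul]
  rw [h4] at h3
  have h7 : ((N * M : ℕ∞) : ℝ≥0∞) = (N : ℝ≥0∞) * (M : ℝ≥0∞) := by
    exact_mod_cast rfl
  unfold HasIndex
  rw [h7]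
  exact h3

end Limits

section Std

variable {W : WeilCohomology.{u, 0} ops} {X : 𝒱.Obj}

/-- The standard conjecture of Lefschetz type for `X`, for all divisors satisfying the hard Lefschetz
theorem. -/
def AllB (W : WeilCohomology.{u, 0} ops) (X : 𝒱.Obj) : Prop :=
  ∀ D : X.Cycles, X.IsCyc 1 D → HardLefschetz W X D → LefschetzB W X D

/-- If homological and numerical equivalence agree on all powers of `X` then the standard conjecture
of Lefschetz type is true for all powers of `X`. -/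
theorem allB_of_homEqNum (h : ∀ n, HomEqNum W (pw X n)) (n : ℕ) : AllB W (pw X n) :=
  fun _ hD hHL => Pool.Agent.V11219.Bst.lefschetzB_of_homEqNum hD hHL
    ((homEqNum_iso (W := W) (pwAdd X n n)).2 (h _))

variable {L : Type} [Field L] [Algebra W.K L]

theorem homEqNum_base_iff : HomEqNum (baseW W L) X ↔ HomEqNum W X :=
  ⟨fun h j hj z hz hnum => em_injective (L := L) (h j hj z hz hnum),
    fun h => Pool.Agent.Y129.homEqNum_base' L h⟩

/-- The class is the class of an algebraic cycle of codimension `j`. -/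
def CycCl (W : WeilCohomology.{u, 0} ops) (X : 𝒱.Obj) (j : ℕ) (c : W.H X) : Prop :=
  ∃ z, X.IsCyc j z ∧ W.cl X z = c

theorem spanCycles_base (j : ℕ) (x : (baseW W L).H X) : x ∈ spanCycles (baseW W L) X j ↔
    x ∈ Submodule.span (baseW W L).K {y | ∃ c, CycCl W X j c ∧ em W L c = y} := by
  have h : {c | ∃ p : ℕ, (p : ℤ) = (j : ℤ) ∧ ∃ z, X.IsCyc p z ∧ (baseW W L).cl X z = c} =
      {y | ∃ c, CycCl W X j c ∧ em W L c = y} := by
    ext y
    constructor
    · rintro ⟨p, hp, z, hz, rfl⟩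
      obtain rfl : p = j := by exact_mod_cast hp
      exact ⟨_, ⟨z, hz, rfl⟩, rfl⟩
    · rintro ⟨_, ⟨z, hz, rfl⟩, rfl⟩
      exact ⟨j, rfl, z, hz, rfl⟩
  unfold spanCycles
  rw [h]

end Std

variable (T : HodgeTheory ops) (X : 𝒱.Obj) [Nontrivial (T.W.H X)] {J : Type} {E : J → Type}
  [∀ a, Field (E a)] [∀ a, Algebra T.W.K (E a)] (hE : ∀ a, Nonempty (E a →+* ℂ))
  {Δ : J → Type} [∀ a, Group (Δ a)] (G : ∀ a, GaloisData (baseW T.W (E a)) (Δ a))

include hE in
/-- **The main theorem.** -/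
theorem main : ∃ (N : ℕ) (H : ℕ∞) (t : J → ℕ∞), 1 ≤ N ∧ (H = N ∨ H = ⊤) ∧
    (∀ a, t a = N ∨ t a = ⊤) ∧
    HasIndex (fun n => hodgeDim T (pw X n)) (fun n => cycRank ops (pw X n)) H ∧
    (∀ a, HasIndex (fun n => tateDim (G a) (pw X n)) (fun n => cycRank ops (pw X n)) (t a)) ∧
    (∀ a, t a = 1 ↔ ∀ n, (∀ j c, IsTate (G a) (pw X n) j c →
      c ∈ Submodule.span (baseW T.W (E a)).K {y | ∃ c, CycCl T.W (pw X n) j c ∧
        em T.W (E a) c = y}) ∧ HomEqNum T.W (pw X n)) ∧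
    (H ≠ ⊤ → ∀ n, HomEqNum T.W (pw X n) ∧ AllB T.W (pw X n) ∧
      ∀ a, HodgeIsTate (G a) (pw X n)) ∧
    (∀ a, t a ≠ ⊤ → ∀ n, HomEqNum T.W (pw X n) ∧ AllB T.W (pw X n) ∧
      TateIndependent G a (pw X n)) := by
  classical
  obtain ⟨N, H, t, hN1, hH, ht, hHI, htI, -, -, h8, h9, -⟩ := HT.main T X hE G
  obtain ⟨M, hM1, hM2, -, -, hM5⟩ := Sys.index (motPred T.W).sys
    (fun Z => ClassPred.alg_le (Q := motPred T.W)) X
  have hMI : HasIndex (fun n => motDim T.W (pw X n)) (fun n => cycRank ops (pw X n)) M := hM2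
  have hmpos := motDim_pos T X
  have hN1' : (1 : ℕ∞) ≤ N := by exact_mod_cast hN1
  have hH1 : 1 ≤ H := by
    rcases hH with h | h
    · rw [h]; exact hN1'
    · rw [h]; exact le_top
  have ht1 : ∀ a, 1 ≤ t a := by
    intro a
    rcases ht a with h | h
    · rw [h]; exact hN1'
    · rw [h]; exact le_top
  have hHI' := index_mul hmpos hH1 hM1 hHI hMI
  have htI' := fun a => index_mul hmpos (ht1 a) hM1 (htI a) hMI
  have hne : ∀ {A : ℕ∞}, 1 ≤ A → A * M ≠ ⊤ → A ≠ ⊤ ∧ M ≠ ⊤ := by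
    intro A hA h
    refine ⟨fun h1 => h ?_, fun h1 => h ?_⟩
    · rw [h1]; exact ENat.top_mul (by rintro rfl; simp at hM1)
    · rw [h1]; exact ENat.mul_top (by rintro rfl; simp at hA)
  have hstd : M ≠ ⊤ → ∀ n, HomEqNum T.W (pw X n) ∧ AllB T.W (pw X n) := fun h n =>
    ⟨hM5 h n, allB_of_homEqNum (hM5 h) n⟩
  have htate : ∀ a, t a * M = 1 ↔ ∀ n, (∀ j c, IsTate (G a) (pw X n) j c →
      c ∈ Submodule.span (baseW T.W (E a)).K {y | ∃ c, CycCl T.W (pw X n) j c ∧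
        em T.W (E a) c = y}) ∧ HomEqNum T.W (pw X n) := by
    intro a
    have hnt : Nontrivial ((baseW T.W (E a)).H X) := Pool.Agent.Y129.nontrivial_base (E a)
    obtain ⟨A, -, hA2, -, hA4, -⟩ := Sys.index (tatePred (G a)).sys
      (fun Z => ClassPred.alg_le (Q := tatePred (G a))) X
    have hA : A = t a * M := by
      have h1 := tendsto_nhds_unique hA2 (htI' a)
      exact_mod_cast h1
    rw [← hA, hA4]
    refine forall_congr' fun n => and_congr ?_ homEqNum_base_iff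
    rw [ClassPred.sp_eq_iff (Q := tatePred (G a)) (pw X n)]
    refine forall_congr' fun j => forall_congr' fun c => ?_
    rw [spanCycles_base]
    rfl
  have hfin1 : H * M ≠ ⊤ → ∀ n, HomEqNum T.W (pw X n) ∧ AllB T.W (pw X n) ∧
      ∀ a, HodgeIsTate (G a) (pw X n) := fun h n =>
    ⟨(hstd (hne hH1 h).2 n).1, (hstd (hne hH1 h).2 n).2, fun a => h8 (hne hH1 h).1 a n⟩
  have hfin2 : ∀ a, t a * M ≠ ⊤ → ∀ n, HomEqNum T.W (pw X n) ∧ AllB T.W (pw X n) ∧
      TateIndependent G a (pw X n) := fun a h n =>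
    ⟨(hstd (hne (ht1 a) h).2 n).1, (hstd (hne (ht1 a) h).2 n).2, h9 a (hne (ht1 a) h).1 n⟩
  by_cases hM : M = ⊤
  · refine ⟨1, H * M, fun a => t a * M, le_rfl, Or.inr ?_, fun a => Or.inr ?_, hHI', htI', htate,
      hfin1, hfin2⟩
    · by_contra h; exact (hne hH1 h).2 hM
    · by_contra h; exact (hne (ht1 a) h).2 hM
  · obtain ⟨m, hm⟩ := ENat.ne_top_iff_exists.1 hM
    have hm1 : 1 ≤ m := by
      rw [← hm] at hM1
      exact_mod_cast hM1
    refine ⟨N * m, H * M, fun a => t a * M, one_le_mul hN1 hm1, ?_, fun a => ?_, hHI', htI',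
      htate, hfin1, hfin2⟩
    · rcases hH with h | h
      · left; rw [h, ← hm]; push_cast; rfl
      · right; rw [h]; exact ENat.top_mul (by rintro rfl; simp at hM1)
    · rcases ht a with h | h
      · left; beta_reduce; rw [h, ← hm]; push_cast; rfl
      · right; beta_reduce; rw [h]; exact ENat.top_mul (by rintro rfl; simp at hM1)

end Pool.Agent.N132.TI
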